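import Pool.Agent.W745.RW.Stm

set_option autoImplicit false
open MeasureTheory Filter Topology Complex
open scoped ContDiff

namespace Pool.Agent.W249.RW

open Pool.Agent.W745.RW

/-- directional derivative -/
noncomputable def dd (a : ℂ) (f : ℂ → ℝ) (z : ℂ) : ℝ := fderiv ℝ f z a

theorem cdd {B : Set ℂ} (hB : IsOpen B) {f : ℂ → ℝ} (hf : ContDiffOn ℝ ∞ f B) (a : ℂ) :
    ContDiffOn ℝ ∞ (dd a f) B := by
  have h1 : ContDiffOn ℝ ∞ (fderiv ℝ f) B := hf.fderiv_of_isOpen hB (by simp)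
  exact h1.clm_apply contDiffOn_const

theorem comm {B : Set ℂ} (hB : IsOpen B) {f : ℂ → ℝ} (hf : ContDiffOn ℝ ∞ f B) {z : ℂ}
    (hz : z ∈ B) (a b : ℂ) : dd a (dd b f) z = dd b (dd a f) z := by
  have hfa : ContDiffAt ℝ ∞ f z := hf.contDiffAt (hB.mem_nhds hz)
  have hs : IsSymmSndFDerivAt ℝ f z := hfa.isSymmSndFDerivAt (by
    simp only [minSmoothness_of_isRCLikeNormedField]
    exact (WithTop.coe_le_coe.mpr (le_top : (2 : ℕ∞) ≤ ⊤) :
      ((2 : ℕ∞) : WithTop ℕ∞) ≤ ((⊤ : ℕ∞) : WithTop ℕ∞)))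
  have hd : DifferentiableAt ℝ (fderiv ℝ f) z := by
    have h1 : ContDiffOn ℝ ∞ (fderiv ℝ f) B := hf.fderiv_of_isOpen hB (by simp)
    exact (h1.contDiffAt (hB.mem_nhds hz)).differentiableAt (by simp)
  unfold dd
  have key : ∀ p q : ℂ, fderiv ℝ (fun w => fderiv ℝ f w q) z p = fderiv ℝ (fderiv ℝ f) z p q := by
    intro p q
    rw [fderiv_clm_apply hd (differentiableAt_const q)]
    simp
  rw [key, key]
  exact hs a b

theorem dd_congr {f g : ℂ → ℝ} {z : ℂ} (h : f =ᶠ[𝓝 z] g) (a : ℂ) : dd a f z = dd a g z := by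
  unfold dd
  rw [h.fderiv_eq]

theorem dd_cm {g : ℂ → ℝ} {z : ℂ} (hg : DifferentiableAt ℝ g z) (c : ℝ) (a : ℂ) :
    dd a (fun w => c * g w) z = c * dd a g z := by
  unfold dd
  rw [fderiv_const_mul hg]
  simp

theorem dd_add {f g : ℂ → ℝ} {z : ℂ} (hf : DifferentiableAt ℝ f z) (hg : DifferentiableAt ℝ g z)
    (a : ℂ) : dd a (fun w => f w + g w) z = dd a f z + dd a g z := by
  unfold dd
  have : fderiv ℝ (fun w => f w + g w) z = fderiv ℝ f z + fderiv ℝ g z := fderiv_add hf hg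
  rw [this]
  simp

theorem diffAt {B : Set ℂ} (hB : IsOpen B) {f : ℂ → ℝ} (hf : ContDiffOn ℝ ∞ f B) {z : ℂ}
    (hz : z ∈ B) : DifferentiableAt ℝ f z :=
  (hf.contDiffAt (hB.mem_nhds hz)).differentiableAt (by simp)

theorem d3 {B : Set ℂ} (hB : IsOpen B) {u : ℂ → ℝ} (hu : ContDiffOn ℝ ∞ u B) (h : ℝ) (a b : ℂ)
    {z : ℂ} (hz : z ∈ B) :
    dd b (dd b (fun w => h * dd a u w)) z = h * dd a (dd b (dd b u)) z := by
  have e1 : ∀ w ∈ B, dd b (fun w => h * dd a u w) w = h * dd a (dd b u) w := by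
    intro w hw
    rw [dd_cm (diffAt hB (cdd hB hu a) hw), comm hB hu hw]
  have e2 : dd b (fun w => h * dd a u w) =ᶠ[𝓝 z] (fun w => h * dd a (dd b u) w) := by
    filter_upwards [hB.mem_nhds hz] with w hw
    exact e1 w hw
  rw [dd_congr e2, dd_cm (diffAt hB (cdd hB (cdd hB hu b) a) hz),
    comm hB (cdd hB hu b) hz]

theorem lap_eq (f : ℂ → ℝ) (z : ℂ) : lap f z = dd 1 (dd 1 f) z + dd I (dd I f) z := rfl

theorem sol_dd {B : Set ℂ} (hB : IsOpen B) {h : ℝ} {u : ℂ → ℝ} (hs : Sol B h u) (a : ℂ) :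
    Sol B h (fun z => h * dd a u z) := by
  have hu := hs.smooth
  refine ⟨hs.hpos, ?_, ?_⟩
  · exact contDiffOn_const.mul (cdd hB hu a)
  · intro z hz
    rw [lap_eq, d3 hB hu h a 1 hz, d3 hB hu h a I hz]
    have c1 := diffAt hB (cdd hB (cdd hB hu 1) 1) hz
    have c2 := diffAt hB (cdd hB (cdd hB hu I) I) hz
    have c0 := diffAt hB hu hz
    have e0 : (fun w => h ^ 2 * (dd 1 (dd 1 u) w + dd I (dd I u) w) + u w) =ᶠ[𝓝 z]
        (fun _ => (0 : ℝ)) := by
      filter_upwards [hB.mem_nhds hz] with w hw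
      exact hs.eq w hw
    have e1 := dd_congr e0 a
    have e2 : dd a (fun _ => (0 : ℝ)) z = 0 := by
      unfold dd
      simp
    have e3 : dd a (fun w => h ^ 2 * (dd 1 (dd 1 u) w + dd I (dd I u) w) + u w) z =
        h ^ 2 * (dd a (dd 1 (dd 1 u)) z + dd a (dd I (dd I u)) z) + dd a u z := by
      have c3 : DifferentiableAt ℝ (fun w => dd 1 (dd 1 u) w + dd I (dd I u) w) z := c1.add c2
      have c4 : DifferentiableAt ℝ (fun w => h ^ 2 * (dd 1 (dd 1 u) w + dd I (dd I u) w)) z :=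
        c3.const_mul _
      rw [dd_add c4 c0, dd_cm c3, dd_add c1 c2]
    rw [e3, e2] at e1
    linear_combination h * e1


theorem prod_cd {B : Set ℂ} (hB : IsOpen B) {ζ u : ℂ → ℝ} (hζ : TF B ζ)
    (hu : ContDiffOn ℝ ∞ u B) : ContDiff ℝ ∞ (fun w => ζ w * u w) := by
  rw [contDiff_iff_contDiffAt]
  intro z
  by_cases hz : z ∈ B
  · exact hζ.1.contDiffAt.mul (hu.contDiffAt (hB.mem_nhds hz))
  · have hz' : z ∉ tsupport ζ := fun h => hz (hζ.2.2 h)
    have h1 := notMem_tsupport_iff_eventuallyEq.mp hz'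
    have h2 : (fun w => ζ w * u w) =ᶠ[𝓝 z] fun _ => (0 : ℝ) := by
      filter_upwards [h1] with w hw
      simp [hw]
    exact contDiffAt_const.congr_of_eventuallyEq h2

theorem en (hE : SE) {B : Set ℂ} (hB : IsOpen B) {h : ℝ} {u : ℂ → ℝ} (hs : Sol B h u)
    {ζ : ℂ → ℝ} (hζ : TF B ζ) {S : Set ℂ} (hsub : tsupport ζ ⊆ S) {M : ℝ}
    (hM : ∀ z, h ^ 2 * (dx ζ z ^ 2 + dy ζ z ^ 2) + ζ z ^ 2 ≤ M)
    (hi : IntegrableOn (fun z => u z ^ 2) S) :
    h ^ 2 * ∫ z, (dx (fun w => ζ w * u w) z ^ 2 + dy (fun w => ζ w * u w) z ^ 2) ≤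
      M * ∫ z in S, u z ^ 2 := by
  rw [hE B hB h u hs ζ hζ]
  have h0 : ∀ z, z ∉ S → (h ^ 2 * (dx ζ z ^ 2 + dy ζ z ^ 2) + ζ z ^ 2) * u z ^ 2 = 0 := by
    intro z hz
    have hz' : z ∉ tsupport ζ := fun h => hz (hsub h)
    have h1 := notMem_tsupport_iff_eventuallyEq.mp hz'
    have h2 : fderiv ℝ ζ z = 0 := by
      rw [h1.fderiv_eq]
      simp
    have h3 : ζ z = 0 := h1.eq_of_nhds
    simp [dx, dy, h2, h3]
  rw [← setIntegral_eq_integral_of_forall_compl_eq_zero h0, ← integral_const_mul]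
  apply integral_mono_of_nonneg
  · exact ae_of_all _ (fun z => by positivity)
  · exact hi.const_mul M
  · exact ae_of_all _ (fun z => mul_le_mul_of_nonneg_right (hM z) (sq_nonneg _))

theorem grad_int {f : ℂ → ℝ} (hf : ContDiff ℝ ∞ f) (hc : HasCompactSupport f) :
    Integrable (fun z => dx f z ^ 2 + dy f z ^ 2) := by
  have h1 : Continuous (fderiv ℝ f) := hf.continuous_fderiv (by simp)
  have k : ∀ a : ℂ, Integrable (fun z => fderiv ℝ f z a ^ 2) := by
    intro a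
    have c1 : Continuous (fun z => fderiv ℝ f z a) := h1.clm_apply continuous_const
    have c2 : HasCompactSupport (fun z => fderiv ℝ f z a) := hc.fderiv_apply (𝕜 := ℝ) a
    have c3 : HasCompactSupport (fun z => fderiv ℝ f z a ^ 2) := by
      have := c2.mul_right (f' := fun z => fderiv ℝ f z a)
      refine this.mono ?_
      intro z hz
      simp only [Function.mem_support, Pi.mul_apply] at hz ⊢
      intro h0
      apply hz
      rw [sq]
      exact h0
    exact (c1.pow 2).integrable_of_hasCompactSupport c3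
  exact (k 1).add (k I)

theorem grad_low {B : Set ℂ} (hB : IsOpen B) {ζ u : ℂ → ℝ} (hζ : TF B ζ)
    (hu : ContDiffOn ℝ ∞ u B) {S : Set ℂ} (hS : IsOpen S) (h1 : ∀ z ∈ S, ζ z = 1) :
    ∫ z in S, (dx u z ^ 2 + dy u z ^ 2) ≤
      ∫ z, (dx (fun w => ζ w * u w) z ^ 2 + dy (fun w => ζ w * u w) z ^ 2) := by
  have e : ∀ z ∈ S, dx u z ^ 2 + dy u z ^ 2 =
      dx (fun w => ζ w * u w) z ^ 2 + dy (fun w => ζ w * u w) z ^ 2 := by
    intro z hz
    have h2 : (fun w => ζ w * u w) =ᶠ[𝓝 z] u := by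
      filter_upwards [hS.mem_nhds hz] with w hw
      rw [h1 w hw, one_mul]
    unfold dx dy
    rw [h2.fderiv_eq]
  rw [setIntegral_congr_fun hS.measurableSet e]
  apply setIntegral_le_integral
  · exact grad_int (prod_cd hB hζ hu) hζ.2.1.mul_right
  · exact ae_of_all _ (fun z => by positivity)

theorem l4_low {ζ v : ℂ → ℝ} (hc : Continuous (fun w => ζ w * v w)) (hs : HasCompactSupport ζ)
    {S : Set ℂ} (hS : MeasurableSet S) (h1 : ∀ z ∈ S, ζ z = 1) :
    ∫ z in S, v z ^ 4 ≤ ∫ z, (ζ z * v z) ^ 4 := by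
  have e : ∀ z ∈ S, v z ^ 4 = (ζ z * v z) ^ 4 := by
    intro z hz
    rw [h1 z hz, one_mul]
  rw [setIntegral_congr_fun hS e]
  apply setIntegral_le_integral
  · apply (hc.pow 4).integrable_of_hasCompactSupport
    have h2 : HasCompactSupport (fun w => ζ w * v w) := hs.mul_right
    refine h2.mono ?_
    intro z hz
    simp only [Function.mem_support] at hz ⊢
    intro h0
    apply hz
    simp only [Pi.pow_apply]
    rw [h0]
    norm_num
  · exact ae_of_all _ (fun z => by positivity)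

theorem l2_up {ζ v : ℂ → ℝ} (h01 : ∀ z, ζ z ^ 2 ≤ 1) {S : Set ℂ} (hsub : tsupport ζ ⊆ S)
    (hi : IntegrableOn (fun z => v z ^ 2) S) :
    ∫ z, (ζ z * v z) ^ 2 ≤ ∫ z in S, v z ^ 2 := by
  have h0 : ∀ z, z ∉ S → (ζ z * v z) ^ 2 = 0 := by
    intro z hz
    have hz' : z ∉ tsupport ζ := fun h => hz (hsub h)
    have h3 : ζ z = 0 := image_eq_zero_of_notMem_tsupport hz'
    simp [h3]
  rw [← setIntegral_eq_integral_of_forall_compl_eq_zero h0]
  apply integral_mono_of_nonneg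
  · exact ae_of_all _ (fun z => by positivity)
  · exact hi
  · refine ae_of_all _ (fun z => ?_)
    change (ζ z * v z) ^ 2 ≤ v z ^ 2
    rw [mul_pow]
    have := mul_le_mul_of_nonneg_right (h01 z) (sq_nonneg (v z))
    linarith

/-- scaled cutoff -/
noncomputable def cut (e : ContDiffBump (0 : ℂ)) (c : ℂ) (h : ℝ) (z : ℂ) : ℝ :=
  e (h⁻¹ • (z - c))

theorem cut_supp (e : ContDiffBump (0 : ℂ)) (c : ℂ) {h : ℝ} (hh : 0 < h) :
    tsupport (cut e c h) ⊆ Metric.closedBall c (e.rOut * h) := by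
  apply closure_minimal _ Metric.isClosed_closedBall
  intro z hz
  rw [Function.mem_support] at hz
  rw [mem_closedBall_iff_norm]
  by_contra hcon
  push Not at hcon
  apply hz
  unfold cut
  apply e.zero_of_le_dist
  rw [dist_zero_right, norm_smul, Real.norm_eq_abs, abs_inv, abs_of_pos hh]
  rw [inv_mul_eq_div, le_div_iff₀ hh]
  exact hcon.le

theorem cut_one (e : ContDiffBump (0 : ℂ)) (c : ℂ) {h : ℝ} (hh : 0 < h) {z : ℂ}
    (hz : z ∈ Metric.ball c (e.rIn * h)) : cut e c h z = 1 := by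
  unfold cut
  apply e.one_of_mem_closedBall
  rw [mem_closedBall_zero_iff, norm_smul, Real.norm_eq_abs, abs_inv, abs_of_pos hh,
    inv_mul_eq_div, div_le_iff₀ hh]
  rw [mem_ball_iff_norm] at hz
  exact hz.le

theorem cut_sq (e : ContDiffBump (0 : ℂ)) (c : ℂ) (h : ℝ) (z : ℂ) : cut e c h z ^ 2 ≤ 1 := by
  unfold cut
  have h1 := e.nonneg (x := h⁻¹ • (z - c))
  have h2 := e.le_one (x := h⁻¹ • (z - c))
  nlinarith

theorem cut_cd (e : ContDiffBump (0 : ℂ)) (c : ℂ) (h : ℝ) : ContDiff ℝ ∞ (cut e c h) := by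
  unfold cut
  have h1 : ContDiff ℝ ∞ (fun z : ℂ => h⁻¹ • (z - c)) :=
    (contDiff_id.sub contDiff_const).const_smul h⁻¹
  have h2 : ContDiff ℝ ∞ (e : ℂ → ℝ) := e.contDiff
  exact h2.comp h1

theorem cut_tf (e : ContDiffBump (0 : ℂ)) (c : ℂ) {h : ℝ} (hh : 0 < h) {B : Set ℂ}
    (hB : Metric.closedBall c (e.rOut * h) ⊆ B) : TF B (cut e c h) :=
  ⟨cut_cd e c h, HasCompactSupport.of_support_subset_isCompact
    (isCompact_closedBall c (e.rOut * h)) (subset_closure.trans (cut_supp e c hh)),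
    (cut_supp e c hh).trans hB⟩

theorem cut_M (e : ContDiffBump (0 : ℂ)) : ∃ M : ℝ, 0 ≤ M ∧ ∀ h : ℝ, 0 < h → ∀ c z : ℂ,
    h ^ 2 * (dx (cut e c h) z ^ 2 + dy (cut e c h) z ^ 2) + cut e c h z ^ 2 ≤ M := by
  have hcd : ContDiff ℝ ∞ e := e.contDiff
  obtain ⟨C, hC⟩ := (hcd.continuous_fderiv (by simp)).bounded_above_of_compact_support
    (e.hasCompactSupport.fderiv (𝕜 := ℝ))
  refine ⟨2 * C ^ 2 + 1, by positivity, ?_⟩
  intro h hh c z
  have hC0 : 0 ≤ C := (norm_nonneg _).trans (hC 0)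
  have hd : HasFDerivAt (cut e c h)
      ((fderiv ℝ e (h⁻¹ • (z - c))).comp (h⁻¹ • ContinuousLinearMap.id ℝ ℂ)) z := by
    have h1 : HasFDerivAt (fun z : ℂ => h⁻¹ • (z - c)) (h⁻¹ • ContinuousLinearMap.id ℝ ℂ) z :=
      ((hasFDerivAt_id z).sub_const c).const_smul h⁻¹
    have h2 : HasFDerivAt e (fderiv ℝ e (h⁻¹ • (z - c))) (h⁻¹ • (z - c)) :=
      (hcd.differentiable (by simp)).differentiableAt.hasFDerivAt
    exact h2.comp z h1
  have key : ∀ a : ℂ, ‖a‖ = 1 → h ^ 2 * (fderiv ℝ (cut e c h) z a) ^ 2 ≤ C ^ 2 := by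
    intro a ha
    rw [hd.fderiv]
    have e1 : ((fderiv ℝ e (h⁻¹ • (z - c))).comp (h⁻¹ • ContinuousLinearMap.id ℝ ℂ)) a =
        h⁻¹ * fderiv ℝ e (h⁻¹ • (z - c)) a := by
      simp
    rw [e1, mul_pow, ← mul_assoc, ← mul_pow, mul_inv_cancel₀ hh.ne', one_pow, one_mul]
    have e2 : |fderiv ℝ e (h⁻¹ • (z - c)) a| ≤ C := by
      have := (fderiv ℝ e (h⁻¹ • (z - c))).le_opNorm a
      rw [ha, mul_one, Real.norm_eq_abs] at this
      exact this.trans (hC _)
    rw [← sq_abs]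
    exact pow_le_pow_left₀ (abs_nonneg _) e2 2
  have k1 := key 1 (by simp)
  have k2 := key I (by simp)
  have k3 := cut_sq e c h z
  unfold dx dy
  nlinarith

theorem cs_ball {S : Set ℂ} (hS : MeasurableSet S) (hV : volume S ≠ ⊤) {u : ℂ → ℝ}
    (h2 : IntegrableOn (fun z => u z ^ 2) S) (h4 : IntegrableOn (fun z => u z ^ 4) S) :
    (∫ z in S, u z ^ 2) ^ 2 ≤ (volume.real S) * ∫ z in S, u z ^ 4 := by
  set U := ∫ z in S, u z ^ 2 with hU
  set Q := ∫ z in S, u z ^ 4 with hQ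
  set V := volume.real S with hVd
  have hV0 : 0 ≤ V := measureReal_nonneg
  have hQ0 : 0 ≤ Q := integral_nonneg (fun z => by positivity)
  have key : ∀ m : ℝ, 0 ≤ Q - 2 * m * U + m ^ 2 * V := by
    intro m
    have e0 : 0 ≤ ∫ z in S, (u z ^ 2 - m) ^ 2 := integral_nonneg (fun z => by positivity)
    have e1 : ∫ z in S, (u z ^ 2 - m) ^ 2 = Q - 2 * m * U + m ^ 2 * V := by
      have e2 : (fun z => (u z ^ 2 - m) ^ 2) =
          fun z => (u z ^ 4 - (2 * m) * u z ^ 2) + m ^ 2 := by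
        funext z
        ring
      have i3 : IntegrableOn (fun _ : ℂ => m ^ 2) S := integrableOn_const hV
      have i4 : IntegrableOn (fun z => 2 * m * u z ^ 2) S := h2.const_mul (2 * m)
      have i5 : IntegrableOn (fun z => u z ^ 4 - 2 * m * u z ^ 2) S := h4.sub i4
      rw [e2, integral_add i5 i3, integral_sub h4 i4, integral_const_mul, setIntegral_const]
      simp only [smul_eq_mul]
      ring
    rw [← e1]
    exact e0
  by_cases hV1 : V = 0
  · have hU0 : U = 0 := by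
      by_contra hne
      have k := key ((Q + 1) / (2 * U))
      rw [hV1] at k
      have : 2 * ((Q + 1) / (2 * U)) * U = Q + 1 := by
        field_simp
      rw [this] at k
      linarith
    rw [hU0, hV1]
    simp
  · have hVp : 0 < V := lt_of_le_of_ne hV0 (Ne.symm hV1)
    have k := key (U / V)
    have e1 : 2 * (U / V) * U = 2 * U ^ 2 / V := by ring
    have e2 : (U / V) ^ 2 * V = U ^ 2 / V := by
      field_simp
    rw [e1, e2] at k
    have e3 : 0 ≤ Q - U ^ 2 / V := by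
      have : 2 * U ^ 2 / V = U ^ 2 / V + U ^ 2 / V := by ring
      rw [this] at k
      linarith
    have e4 : U ^ 2 / V ≤ Q := by linarith
    rw [div_le_iff₀ hVp] at e4
    linarith

theorem vol_ball (c : ℂ) {r : ℝ} (hr : 0 ≤ r) : volume.real (Metric.ball c r) = Real.pi * r ^ 2 := by
  rw [Measure.real, Complex.volume_ball, ENNReal.toReal_mul, ENNReal.toReal_pow,
    ENNReal.toReal_ofReal hr]
  simp only [ENNReal.coe_toReal, NNReal.coe_real_pi]
  ring

/-- a cutoff that is one on the unit disc -/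
noncomputable def b1 : ContDiffBump (0 : ℂ) := ⟨1, 3 / 2, by norm_num, by norm_num⟩

/-- a cutoff that is one on the disc of radius two -/
noncomputable def b2 : ContDiffBump (0 : ℂ) := ⟨2, 5 / 2, by norm_num, by norm_num⟩

theorem sg1 (hL : SL) (hE : SE) : SG1 := by
  obtain ⟨C0, hC0⟩ := hL
  obtain ⟨M1, hM1, hM1'⟩ := cut_M b1
  obtain ⟨M2, hM2, hM2'⟩ := cut_M b2
  refine ⟨4 * (|C0| * M1 * M2 ^ 2 * (9 * Real.pi)), ?_⟩
  intro h u c hs
  have hh : 0 < h := hs.hpos
  set B := Metric.ball c (4 * h) with hBdef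
  have hB : IsOpen B := Metric.isOpen_ball
  have hu := hs.smooth
  have hsub3 : Metric.closedBall c (3 * h) ⊆ B := Metric.closedBall_subset_ball (by linarith)
  have hsub1 : Metric.closedBall c (b1.rOut * h) ⊆ Metric.ball c (2 * h) := by
    apply Metric.closedBall_subset_ball
    have : b1.rOut = 3 / 2 := rfl
    rw [this]
    linarith
  have hsub2 : Metric.closedBall c (b2.rOut * h) ⊆ Metric.ball c (3 * h) := by
    apply Metric.closedBall_subset_ball
    have : b2.rOut = 5 / 2 := rfl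
    rw [this]
    linarith
  have hb3 : Metric.ball c (3 * h) ⊆ B := Metric.ball_subset_closedBall.trans hsub3
  have hb2 : Metric.ball c (2 * h) ⊆ Metric.ball c (3 * h) :=
    Metric.ball_subset_ball (by linarith)
  have hb1 : Metric.ball c h ⊆ Metric.ball c (3 * h) :=
    Metric.ball_subset_ball (by linarith)
  have tf1 : TF B (cut b1 c h) := cut_tf b1 c hh (hsub1.trans (hb2.trans hb3))
  have tf2 : TF B (cut b2 c h) := cut_tf b2 c hh (hsub2.trans hb3)
  -- integrability on the balls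
  have hint : ∀ f : ℂ → ℝ, ContinuousOn f B → IntegrableOn f (Metric.ball c (3 * h)) := by
    intro f hf
    exact ((hf.mono hsub3).integrableOn_compact (isCompact_closedBall c (3 * h))).mono_set
      Metric.ball_subset_closedBall
  have hcont : ∀ v : ℂ → ℝ, Sol B h v → ContinuousOn v B := fun v hv => hv.smooth.continuousOn
  set U := ∫ z in Metric.ball c (3 * h), u z ^ 2 with hU
  set Q := ∫ z in Metric.ball c (3 * h), u z ^ 4 with hQ
  have hcu : ContinuousOn u B := hcont u hs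
  have hUQ : U ^ 2 ≤ (9 * Real.pi * h ^ 2) * Q := by
    have k := cs_ball (S := Metric.ball c (3 * h)) measurableSet_ball
      (measure_ball_lt_top).ne (hint _ (hcu.pow 2)) (hint _ (hcu.pow 4))
    rw [vol_ball c (by positivity)] at k
    calc U ^ 2 ≤ Real.pi * (3 * h) ^ 2 * Q := k
      _ = (9 * Real.pi * h ^ 2) * Q := by ring
  have hU0 : 0 ≤ U := integral_nonneg (fun z => by positivity)
  -- the gradient of u on the ball of radius 2h
  have s1 : h ^ 2 * ∫ z, (dx (fun w => cut b2 c h w * u w) z ^ 2 +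
      dy (fun w => cut b2 c h w * u w) z ^ 2) ≤ M2 * U :=
    en hE hB hs tf2 ((cut_supp b2 c hh).trans hsub2) (fun z => hM2' h hh c z)
      (hint _ (hcu.pow 2))
  have s2 : ∫ z in Metric.ball c (2 * h), (dx u z ^ 2 + dy u z ^ 2) ≤
      ∫ z, (dx (fun w => cut b2 c h w * u w) z ^ 2 +
        dy (fun w => cut b2 c h w * u w) z ^ 2) :=
    grad_low hB tf2 hu Metric.isOpen_ball (fun z hz => cut_one b2 c hh hz)
  have s3 : h ^ 2 * ∫ z in Metric.ball c (2 * h), (dx u z ^ 2 + dy u z ^ 2) ≤ M2 * U :=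
    (mul_le_mul_of_nonneg_left s2 (by positivity)).trans s1
  -- the main estimate for one derivative
  have main : ∀ v : ℂ → ℝ, Sol B h v →
      (∀ z, v z ^ 2 ≤ h ^ 2 * (dx u z ^ 2 + dy u z ^ 2)) →
      ∫ z in Metric.ball c h, v z ^ 4 ≤ |C0| * M1 * M2 ^ 2 * (9 * Real.pi) * Q := by
    intro v hv hvle
    have hcv := hcont v hv
    have i2 : IntegrableOn (fun z => v z ^ 2) (Metric.ball c (2 * h)) :=
      (hint _ (hcv.pow 2)).mono_set hb2
    have hgc : ContinuousOn (fun z => h ^ 2 * (dx u z ^ 2 + dy u z ^ 2)) B :=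
      continuousOn_const.mul (((cdd hB hu 1).continuousOn.pow 2).add
        ((cdd hB hu I).continuousOn.pow 2))
    have t1 : ∫ z in Metric.ball c (2 * h), v z ^ 2 ≤ M2 * U := by
      have k1 : ∫ z in Metric.ball c (2 * h), v z ^ 2 ≤
          ∫ z in Metric.ball c (2 * h), h ^ 2 * (dx u z ^ 2 + dy u z ^ 2) := by
        apply integral_mono_of_nonneg
        · exact ae_of_all _ (fun z => by positivity)
        · exact (hint _ hgc).mono_set hb2
        · exact ae_of_all _ (fun z => hvle z)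
      rw [integral_const_mul] at k1
      exact k1.trans s3
    have t2 : h ^ 2 * ∫ z, (dx (fun w => cut b1 c h w * v w) z ^ 2 +
        dy (fun w => cut b1 c h w * v w) z ^ 2) ≤ M1 * ∫ z in Metric.ball c (2 * h), v z ^ 2 :=
      en hE hB hv tf1 ((cut_supp b1 c hh).trans hsub1) (fun z => hM1' h hh c z) i2
    have t3 : ∫ z, (cut b1 c h z * v z) ^ 2 ≤ ∫ z in Metric.ball c (2 * h), v z ^ 2 :=
      l2_up (cut_sq b1 c h) ((cut_supp b1 c hh).trans hsub1) i2
    have hcd : ContDiff ℝ ∞ (fun w => cut b1 c h w * v w) := prod_cd hB tf1 hv.smooth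
    have t4 := hC0 (fun w => cut b1 c h w * v w) (hcd.of_le (by
      exact (WithTop.coe_le_coe.mpr (le_top : (1 : ℕ∞) ≤ ⊤) :
        ((1 : ℕ∞) : WithTop ℕ∞) ≤ ((⊤ : ℕ∞) : WithTop ℕ∞)))) tf1.2.1.mul_right
    have t5 : ∫ z in Metric.ball c h, v z ^ 4 ≤ ∫ z, (cut b1 c h z * v z) ^ 4 := by
      apply l4_low hcd.continuous tf1.2.1 measurableSet_ball
      intro z hz
      apply cut_one b1 c hh
      have : b1.rIn = 1 := rfl
      rw [this, one_mul]
      exact hz
    set G := ∫ z, (dx (fun w => cut b1 c h w * v w) z ^ 2 +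
        dy (fun w => cut b1 c h w * v w) z ^ 2) with hG
    set N := ∫ z, (cut b1 c h z * v z) ^ 2 with hN
    set R := ∫ z in Metric.ball c (2 * h), v z ^ 2 with hR
    have hG0 : 0 ≤ G := integral_nonneg (fun z => by positivity)
    have hN0 : 0 ≤ N := integral_nonneg (fun z => by positivity)
    have hR0 : 0 ≤ R := integral_nonneg (fun z => by positivity)
    have t6 : ∫ z in Metric.ball c h, v z ^ 4 ≤ |C0| * N * G := by
      refine t5.trans (t4.trans ?_)
      apply mul_le_mul_of_nonneg_right _ hG0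
      exact mul_le_mul_of_nonneg_right (le_abs_self _) hN0
    have hh2 : 0 < h ^ 2 := by positivity
    have t7 : N ≤ M2 * U := t3.trans t1
    have t8 : h ^ 2 * G ≤ M1 * (M2 * U) := t2.trans (mul_le_mul_of_nonneg_left t1 hM1)
    have t9 : N * (h ^ 2 * G) ≤ (M2 * U) * (M1 * (M2 * U)) :=
      mul_le_mul t7 t8 (by positivity) (by positivity)
    have t10 : N * (h ^ 2 * G) ≤ (M1 * M2 ^ 2) * ((9 * Real.pi * h ^ 2) * Q) := by
      calc N * (h ^ 2 * G) ≤ (M2 * U) * (M1 * (M2 * U)) := t9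
        _ = (M1 * M2 ^ 2) * U ^ 2 := by ring
        _ ≤ (M1 * M2 ^ 2) * ((9 * Real.pi * h ^ 2) * Q) :=
          mul_le_mul_of_nonneg_left hUQ (by positivity)
    have t11 : N * G ≤ (M1 * M2 ^ 2) * ((9 * Real.pi) * Q) := by
      have k : h ^ 2 * (N * G) ≤ h ^ 2 * ((M1 * M2 ^ 2) * ((9 * Real.pi) * Q)) := by
        calc h ^ 2 * (N * G) = N * (h ^ 2 * G) := by ring
          _ ≤ (M1 * M2 ^ 2) * ((9 * Real.pi * h ^ 2) * Q) := t10
          _ = h ^ 2 * ((M1 * M2 ^ 2) * ((9 * Real.pi) * Q)) := by ring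
      exact le_of_mul_le_mul_left k hh2
    calc ∫ z in Metric.ball c h, v z ^ 4 ≤ |C0| * N * G := t6
      _ = |C0| * (N * G) := by ring
      _ ≤ |C0| * ((M1 * M2 ^ 2) * ((9 * Real.pi) * Q)) :=
        mul_le_mul_of_nonneg_left t11 (abs_nonneg _)
      _ = |C0| * M1 * M2 ^ 2 * (9 * Real.pi) * Q := by ring
  have m1 := main (fun z => h * dd 1 u z) (sol_dd hB hs 1) (by
    intro z
    change (h * dx u z) ^ 2 ≤ _
    rw [mul_pow]
    have : 0 ≤ h ^ 2 * dy u z ^ 2 := by positivity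
    nlinarith)
  have m2 := main (fun z => h * dd I u z) (sol_dd hB hs I) (by
    intro z
    change (h * dy u z) ^ 2 ≤ _
    rw [mul_pow]
    have : 0 ≤ h ^ 2 * dx u z ^ 2 := by positivity
    nlinarith)
  have c1 : ContinuousOn (fun z => (h * dd 1 u z) ^ 4) B :=
    (continuousOn_const.mul (cdd hB hu 1).continuousOn).pow 4
  have c2 : ContinuousOn (fun z => (h * dd I u z) ^ 4) B :=
    (continuousOn_const.mul (cdd hB hu I).continuousOn).pow 4
  have i1 : IntegrableOn (fun z => (h * dd 1 u z) ^ 4) (Metric.ball c h) :=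
    (hint _ c1).mono_set hb1
  have i2 : IntegrableOn (fun z => (h * dd I u z) ^ 4) (Metric.ball c h) :=
    (hint _ c2).mono_set hb1
  have fin : ∫ z in Metric.ball c h, (h ^ 2 * (dx u z ^ 2 + dy u z ^ 2)) ^ 2 ≤
      ∫ z in Metric.ball c h, (2 * (h * dd 1 u z) ^ 4 + 2 * (h * dd I u z) ^ 4) := by
    apply integral_mono_of_nonneg
    · exact ae_of_all _ (fun z => by positivity)
    · exact (i1.const_mul 2).add (i2.const_mul 2)
    · refine ae_of_all _ (fun z => ?_)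
      change (h ^ 2 * (dx u z ^ 2 + dy u z ^ 2)) ^ 2 ≤
        2 * (h * dx u z) ^ 4 + 2 * (h * dy u z) ^ 4
      have : 0 ≤ ((h * dx u z) ^ 2 - (h * dy u z) ^ 2) ^ 2 := by positivity
      nlinarith
  rw [integral_add (i1.const_mul 2) (i2.const_mul 2), integral_const_mul,
    integral_const_mul] at fin
  calc ∫ z in Metric.ball c h, (h ^ 2 * (dx u z ^ 2 + dy u z ^ 2)) ^ 2
      ≤ 2 * (∫ z in Metric.ball c h, (h * dd 1 u z) ^ 4) +
        2 * ∫ z in Metric.ball c h, (h * dd I u z) ^ 4 := fin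
    _ ≤ 2 * (|C0| * M1 * M2 ^ 2 * (9 * Real.pi) * Q) +
        2 * (|C0| * M1 * M2 ^ 2 * (9 * Real.pi) * Q) := by linarith
    _ = 4 * (|C0| * M1 * M2 ^ 2 * (9 * Real.pi)) * Q := by ring

end Pool.Agent.W249.RW

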